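import Pool.Agent.Lib_helper32.JO.N3

/-!
# Project JO, part B1, block MEA
-/

set_option autoImplicit false

namespace Pool.Agent.JO

open Complex MeasureTheory Filter Topology
open UpperHalfPlane hiding I
open scoped MatrixGroups ComplexConjugate ENNReal

theorem mea_sf : SFinite muG := by
  unfold muG
  infer_instance

theorem mea_fin : IsFiniteMeasure muG := by
  obtain ⟨V, hV, h⟩ := ip_one (N := 1)
  by_contra hn
  have hu : muG Set.univ = ∞ := by
    by_contra h3
    exact hn ⟨lt_top_iff_ne_top.2 h3⟩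
  have h0 : ip (N := 1) (fun _ _ => 1) (fun _ _ => 1) = 0 := by
    unfold ip
    simp [Measure.real, hu]
  rw [h0] at h
  have : (V : ℝ) = 0 := by exact_mod_cast h.symm
  exact hV.ne' this

theorem mea_kK (a b : ℝ) : kK b * kK a = kK (b + a) := by
  apply Subtype.ext
  rw [Matrix.SpecialLinearGroup.coe_mul]
  unfold kK
  simp only [Matrix.mul_fin_two, Real.cos_add, Real.sin_add]
  ext i j
  fin_cases i <;> fin_cases j <;> simp <;> ring

theorem mea_gg (z : ℍ) (a b : ℝ) : gg z b * kK a = gg z (b + a) := by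
  rw [gg_eq_mul_kK z b, mul_assoc, mea_kK, ← gg_eq_mul_kK]

theorem mea_gx {a y t : ℝ} (hy : 0 < y) : gx (xa a y) t = gx (xa 0 y) t * kK a := by
  have h1 := gx_eq_gg ⟨⟨t, y⟩, hy⟩ a
  have h2 := gx_eq_gg ⟨⟨t, y⟩, hy⟩ 0
  have e1 : (⟨⟨t, y⟩, hy⟩ : ℍ).im = y := rfl
  have e2 : (⟨⟨t, y⟩, hy⟩ : ℍ).re = t := rfl
  rw [e1, e2] at h1 h2
  unfold xa
  rw [← h1, ← h2, gg_eq_mul_kK]

section

variable {N : ℕ} [NeZero N] {χ : DirichletCharacter ℂ N} {k : ℕ} {lam : ℕ → ℂ} {u : ℍ → ℂ}

theorem mean_meas_pr (hu : WForm N χ k lam u) :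
    Measurable fun w : ℍ => mean (PsiF (N := N) k u w) := by
  have := mea_sf
  unfold mean ip
  refine Measurable.div_const ?_ _
  refine Finset.measurable_sum _ fun s _ => ?_
  have h0 : Continuous fun q : ℍ × (ℍ × ℝ) => gg q.2.1 q.2.2 := by
    have h3 := gg_cont.comp (continuous_snd (X := ℍ) (Y := ℍ × ℝ))
    rw [Function.comp_def] at h3
    exact h3
  have h1 := (psi_cont hu s).comp
    (f := fun q : ℍ × (ℍ × ℝ) => ((q.1, gg q.2.1 q.2.2) : ℍ × SL(2, ℝ)))
    (continuous_fst.prodMk h0)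
  rw [Function.comp_def] at h1
  have h2 := (h1.mul (continuous_const (y := conj (1 : ℂ)))).measurable.stronglyMeasurable
  exact (h2.integral_prod_right' (ν := muG)).measurable

theorem mea_int (hu : WForm N χ k lam u) (w : ℍ) (s : QN N) (a : ℝ) :
    Integrable (fun p : ℍ × ℝ => PsiF k u w s (gg p.1 (p.2 + a))) muG := by
  have := mea_fin
  obtain ⟨B, hB0, hB⟩ := psi_bdd hu
  have h2 : Continuous fun p : ℍ × ℝ => gg p.1 (p.2 + a) := by
    have h3 := gg_cont.comp (f := fun p : ℍ × ℝ => ((p.1, p.2 + a) : ℍ × ℝ))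
      (continuous_fst.prodMk (continuous_snd.add continuous_const))
    rw [Function.comp_def] at h3
    exact h3
  have h1 := (psi_cont hu s).comp (f := fun p : ℍ × ℝ => ((w, gg p.1 (p.2 + a)) : ℍ × SL(2, ℝ)))
    (continuous_const.prodMk h2)
  rw [Function.comp_def] at h1
  exact Integrable.of_bound h1.measurable.aestronglyMeasurable B
    (Filter.Eventually.of_forall fun p => hB _ _ _)

theorem mea_shift (hu : WForm N χ k lam u) (w : ℍ) (s : QN N) (a : ℝ) :
    ∫ p : ℍ × ℝ, PsiF k u w s (gg p.1 (p.2 + a)) ∂muG =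
      ∫ p : ℍ × ℝ, PsiF k u w s (gg p.1 p.2) ∂muG := by
  have h0 := mea_int hu w s a
  have h1 := mea_int hu w s 0
  simp only [add_zero] at h1
  unfold muG at h0 h1 ⊢
  rw [integral_prod _ h0, integral_prod _ h1]
  refine integral_congr_ae (Filter.Eventually.of_forall fun z => ?_)
  simp only
  have hper : Function.Periodic (fun b : ℝ => PsiF k u w s (gg z b)) (2 * Real.pi) := by
    intro b
    simp only
    rw [(gg_per z b).1]
  have hpi : (0 : ℝ) ≤ 2 * Real.pi := by positivity
  rw [← intervalIntegral.integral_of_le hpi, ← intervalIntegral.integral_of_le hpi,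
    intervalIntegral.integral_comp_add_right (fun b : ℝ => PsiF k u w s (gg z b)) a]
  have := hper.intervalIntegral_add_eq a 0
  simpa [add_comm] using this

theorem cf_rot_pr (hu : WForm N χ k lam u) (w : ℍ) (a : ℝ) : ∃ ph : ℂ, ‖ph‖ = 1 ∧
    (∀ (y : ℝ) (v : ZMod N × ZMod N), 0 < y →
      CF (PsiF (N := N) k u w) (xa a y) v =
        ph * CF (PsiF (N := N) k u (kK a • w)) (xa 0 y) v) ∧
    mean (PsiF (N := N) k u w) = ph * mean (PsiF (N := N) k u (kK a • w)) := by
  obtain ⟨ph, hph, h⟩ := psi_rot (N := N) k u w a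
  refine ⟨ph, hph, fun y v hy => ?_, ?_⟩
  · unfold CF
    rw [mul_left_comm ph]
    refine congrArg (fun z : ℂ => (N : ℂ)⁻¹ * z) ?_
    rw [Finset.mul_sum]
    refine Finset.sum_congr rfl fun s _ => ?_
    rw [mul_ite, mul_zero]
    refine if_congr Iff.rfl ?_ rfl
    rw [← intervalIntegral.integral_const_mul]
    refine intervalIntegral.integral_congr fun t _ => ?_
    change PsiF k u w s (gx (xa a y) t) = ph * PsiF k u (kK a • w) s (gx (xa 0 y) t)
    rw [mea_gx hy, h]
  · unfold mean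
    rw [← mul_div_assoc]
    congr 1
    unfold ip
    rw [Finset.mul_sum]
    refine Finset.sum_congr rfl fun s _ => ?_
    rw [← integral_const_mul]
    simp only [map_one, mul_one]
    rw [← mea_shift hu w s a]
    refine integral_congr_ae (Filter.Eventually.of_forall fun p => ?_)
    simp only
    rw [← h s (gg p.1 p.2), mea_gg]

end

end Pool.Agent.JO
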