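import Pool.Agent.Lib_helper32.JO.N1

/-!
# Project JO, part B1, block PSI
-/

set_option autoImplicit false

namespace Pool.Agent.JO

open Complex MeasureTheory Filter Topology
open UpperHalfPlane hiding I
open scoped MatrixGroups ComplexConjugate ENNReal

section

variable {N : ℕ} [NeZero N] {χ : DirichletCharacter ℂ N} {k : ℕ} {lam : ℕ → ℂ} {u : ℍ → ℂ}

theorem psi_cont_pr (hu : WForm N χ k lam u) (s : QN N) :
    Continuous fun q : ℍ × SL(2, ℝ) => PsiF k u q.1 s q.2 := by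
  have h0 : Continuous fun g : SL(2, ℝ) => liftK k u s g := continuous_liftK' hu s
  have h1 : Continuous fun q : ℍ × SL(2, ℝ) => gg q.1 0 :=
    gg_cont.comp (continuous_fst.prodMk continuous_const)
  have h2 : Continuous fun q : ℍ × SL(2, ℝ) => q.2 * gg q.1 0 := continuous_snd.mul h1
  unfold PsiF
  exact (h0.comp continuous_snd).mul (Complex.continuous_conj.comp (h0.comp h2))

theorem psi_mf_pr (hu : WForm N χ k lam u) (w : ℍ) : MF (N := N) (PsiF k u w) := by
  have h0 : Fam (N := N) (liftK k u) := fam_liftK hu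
  refine ⟨fun γ s g => ?_, fun s => ?_⟩
  · simp only [PsiF]
    rw [h0, mul_assoc, h0]
  · have h1 : Continuous fun p : ℍ × ℝ => ((w, gg p.1 p.2) : ℍ × SL(2, ℝ)) :=
      continuous_const.prodMk gg_cont
    have h2 := (psi_cont_pr hu s).comp h1
    rw [Function.comp_def] at h2
    exact h2.measurable

theorem psi_bdd_pr (hu : WForm N χ k lam u) :
    ∃ B : ℝ, 0 ≤ B ∧ ∀ (w : ℍ) (s : QN N) (g : SL(2, ℝ)), ‖PsiF k u w s g‖ ≤ B := by
  obtain ⟨B, hB⟩ := liftK_bdd hu
  have hB0 : 0 ≤ B := (norm_nonneg _).trans (hB 1 1)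
  refine ⟨B * B, mul_nonneg hB0 hB0, fun w s g => ?_⟩
  unfold PsiF
  rw [norm_mul, RCLike.norm_conj]
  exact mul_le_mul (hB _ _) (hB _ _) (norm_nonneg _) hB0

theorem psi_decay_pr (hu : WForm N χ k lam u) :
    ∃ C c : ℝ, 0 < c ∧ ∀ (w : ℍ) (s : QN N) (z : ℍ) (a : ℝ), 1 / 2 ≤ z.im →
      ‖PsiF k u w s (gg z a)‖ ≤ C * Real.exp (-(c * z.im)) := by
  obtain ⟨B, hB⟩ := liftK_bdd hu
  obtain ⟨C, c, hc, hC⟩ := liftK_decay hu
  have hB0 : 0 ≤ B := (norm_nonneg _).trans (hB 1 1)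
  refine ⟨C * B, c, hc, fun w s z a hz => ?_⟩
  unfold PsiF
  rw [norm_mul, RCLike.norm_conj]
  have h1 := hC s z a hz
  have h2 : -c * z.im = -(c * z.im) := by ring
  rw [h2] at h1
  calc ‖liftK k u s (gg z a)‖ * ‖liftK k u s (gg z a * gg w 0)‖
      ≤ (C * Real.exp (-(c * z.im))) * B :=
        mul_le_mul h1 (hB _ _) (norm_nonneg _) ((norm_nonneg _).trans h1)
    _ = C * B * Real.exp (-(c * z.im)) := by ring

theorem psi_I_pr (hu : WForm N χ k lam u) :
    PsiF (N := N) k u UpperHalfPlane.I = liftH (phiF u) := by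
  funext s g
  rw [liftH_phiF hu]
  unfold PsiF
  rw [gg_I_zero, mul_one]

end

end Pool.Agent.JO
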